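import Pool.Agent.Helper42.AV.RD2
import Pool.Agent.Helper2.AV.PDefs

/-!
From pairs of blocks to the whole Lie algebra (block GO).
-/

set_option linter.unusedSimpArgs false
set_option linter.unusedSectionVars false
set_option linter.unusedVariables false

open Module

namespace AV

open MTP UN

/-- The span of the brackets of the elements of `M`. -/
def GO.brk {K : Type*} [Field K] {V : Type*} [AddCommGroup V] [Module K V]
    (M : Submodule K (Module.End K V)) : Submodule K (Module.End K V) :=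
  Submodule.span K {w | ∃ y ∈ M, ∃ z ∈ M, w = y * z - z * y}

namespace GO

variable {K : Type*} [Field K] {V : Type*} [AddCommGroup V] [Module K V] [FiniteDimensional K V]

lemma brk_mono {M N : Submodule K (Module.End K V)} (h : M ≤ N) : brk M ≤ brk N := by
  unfold brk
  apply Submodule.span_mono
  rintro w ⟨y, hy, z, hz, rfl⟩
  exact ⟨y, h hy, z, h hz, rfl⟩

lemma brk_le {M : Submodule K (Module.End K V)} (hbr : ∀ x ∈ M, ∀ y ∈ M, x * y - y * x ∈ M) :
    brk M ≤ M := by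
  unfold brk
  rw [Submodule.span_le]
  rintro w ⟨y, hy, z, hz, rfl⟩
  exact hbr y hy z hz

/-- A simple Lie algebra of operators with trivial centre is spanned by the brackets. -/
lemma perfect {L : Submodule K (Module.End K V)} (hL : Red L) (hs : Smp L) (hne : L ≠ ⊥) :
    brk L = L := by
  have hle := brk_le hL.br
  rcases hs (brk L) hle (by
    intro x hx y hy
    exact Submodule.subset_span ⟨x, hx, y, hle hy, rfl⟩) with h | h
  · exfalso
    apply hne
    rw [eq_bot_iff]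
    intro x hx
    rw [Submodule.mem_bot]
    apply hL.cen x hx
    intro y hy
    have h1 : x * y - y * x ∈ brk L := Submodule.subset_span ⟨x, hx, y, hy, rfl⟩
    rw [h, Submodule.mem_bot, sub_eq_zero] at h1
    exact h1
  · exact h

/-- Data of a Lie algebra of operators in an algebra with central idempotents. -/
structure Dat (A : Subalgebra K (Module.End K V)) (M : Submodule K (Module.End K V)) : Prop where
  mem : ∀ x ∈ M, x ∈ A
  br : ∀ x ∈ M, ∀ y ∈ M, x * y - y * x ∈ M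

variable {A : Subalgebra K (Module.End K V)} {M : Submodule K (Module.End K V)}

/-- The part of `M` vanishing on the idempotents in `S`. -/
def van (M : Submodule K (Module.End K V)) (S : Finset (Module.End K V)) :
    Submodule K (Module.End K V) where
  carrier := {z | z ∈ M ∧ ∀ f ∈ S, z * f = 0}
  add_mem' := by
    rintro a b ⟨ha, ha'⟩ ⟨hb, hb'⟩
    refine ⟨M.add_mem ha hb, fun f hf => ?_⟩
    rw [add_mul, ha' f hf, hb' f hf, add_zero]
  zero_mem' := ⟨M.zero_mem, fun f _ => zero_mul f⟩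
  smul_mem' := by
    rintro c a ⟨ha, ha'⟩
    refine ⟨M.smul_mem c ha, fun f hf => ?_⟩
    rw [smul_mul_assoc, ha' f hf, smul_zero]

lemma mem_van {S : Finset (Module.End K V)} {z : Module.End K V} :
    z ∈ van M S ↔ z ∈ M ∧ ∀ f ∈ S, z * f = 0 := Iff.rfl

/-- The component of brackets. -/
lemma Dat.br_mul (D : Dat A M) {e x y : Module.End K V} (he : Bl A e) (hx : x ∈ A) (hy : y ∈ A) :
    (x * e) * (y * e) - (y * e) * (x * e) = (x * y - y * x) * e := by
  have h1 : e * y = y * e := he.cen y hy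
  have h2 : e * x = x * e := he.cen x hx
  have e1 : (x * e) * (y * e) = x * y * e := by
    rw [mul_assoc, ← mul_assoc e y e, h1, mul_assoc y e e, he.idem, mul_assoc]
  have e2 : (y * e) * (x * e) = y * x * e := by
    rw [mul_assoc, ← mul_assoc e x e, h2, mul_assoc x e e, he.idem, mul_assoc]
  rw [e1, e2, sub_mul]

/-- Brackets with an element vanishing on a block vanish on the block. -/
lemma Dat.br_van (D : Dat A M) {f x y : Module.End K V} (hf : Bl A f) (hx : x ∈ A) (hy : y ∈ A)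
    (h : x * f = 0) : (x * y - y * x) * f = 0 ∧ (y * x - x * y) * f = 0 := by
  have h1 : f * y = y * f := hf.cen y hy
  have e1 : x * y * f = 0 := by rw [mul_assoc, ← h1, ← mul_assoc, h, zero_mul]
  have e2 : y * x * f = 0 := by rw [mul_assoc, h, mul_zero]
  constructor
  · rw [sub_mul, e1, e2, sub_zero]
  · rw [sub_mul, e1, e2, sub_zero]

/-- Goursat for many factors. -/
lemma Dat.onto (D : Dat A M) {e : Module.End K V} (he : Bl A e)
    (hp : brk (M.map (LinearMap.mulRight K e)) = M.map (LinearMap.mulRight K e))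
    (hs : Smp (M.map (LinearMap.mulRight K e))) (S : Finset (Module.End K V))
    (hS : ∀ f ∈ S, Bl A f ∧ ∃ x ∈ M, x * e ≠ 0 ∧ x * f = 0) :
    (van M S).map (LinearMap.mulRight K e) = M.map (LinearMap.mulRight K e) := by
  classical
  induction S using Finset.induction_on with
  | empty =>
    congr 1
    apply le_antisymm
    · intro z hz; exact hz.1
    · intro z hz; exact ⟨hz, fun f hf => absurd hf (Finset.notMem_empty f)⟩
  | insert f S hfS ih =>
    have hS' : ∀ f ∈ S, Bl A f ∧ ∃ x ∈ M, x * e ≠ 0 ∧ x * f = 0 :=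
      fun g hg => hS g (Finset.mem_insert_of_mem hg)
    have ih' := ih hS'
    obtain ⟨hf, x0, hx0, hx0e, hx0f⟩ := hS f (Finset.mem_insert_self f S)
    -- the kernel of the component of `f`
    have hK : (van M {f}).map (LinearMap.mulRight K e) = M.map (LinearMap.mulRight K e) := by
      rcases hs ((van M {f}).map (LinearMap.mulRight K e))
        (Submodule.map_mono (fun z hz => hz.1)) (by
          rintro _ ⟨x, hx, rfl⟩ _ ⟨y, hy, rfl⟩
          simp only [LinearMap.mulRight_apply]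
          rw [D.br_mul he (D.mem x hx) (D.mem y hy.1)]
          refine ⟨x * y - y * x, ⟨D.br x hx y hy.1, ?_⟩, rfl⟩
          intro g hg
          rw [Finset.mem_singleton] at hg
          subst hg
          exact (D.br_van hf (D.mem y hy.1) (D.mem x hx)
            (hy.2 g (Finset.mem_singleton_self g))).2) with h | h
      · exfalso
        have h1 : x0 * e ∈ (van M {f}).map (LinearMap.mulRight K e) := by
          refine ⟨x0, ⟨hx0, ?_⟩, rfl⟩
          intro g hg
          rw [Finset.mem_singleton] at hg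
          rw [hg]; exact hx0f
        rw [h, Submodule.mem_bot] at h1
        exact hx0e h1
      · exact h
    apply le_antisymm
    · exact Submodule.map_mono (fun z hz => hz.1)
    · conv_lhs => rw [← hp]
      unfold brk
      rw [Submodule.span_le]
      rintro w ⟨y, hy, z, hz, rfl⟩
      rw [← ih'] at hy
      rw [← hK] at hz
      obtain ⟨y', hy', rfl⟩ := hy
      obtain ⟨z', hz', rfl⟩ := hz
      simp only [LinearMap.mulRight_apply]
      rw [D.br_mul he (D.mem _ hy'.1) (D.mem _ hz'.1)]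
      refine ⟨y' * z' - z' * y', ⟨D.br _ hy'.1 _ hz'.1, ?_⟩, rfl⟩
      intro g hg
      rw [Finset.mem_insert] at hg
      rcases hg with rfl | hg
      · exact (D.br_van hf (D.mem _ hz'.1) (D.mem _ hy'.1)
          (hz'.2 g (Finset.mem_singleton_self g))).2
      · exact (D.br_van (hS' g hg).1 (D.mem _ hy'.1) (D.mem _ hz'.1) (hy'.2 g hg)).1

end GO

section GO
variable {K : Type*} [Field K] [IsAlgClosed K] [CharZero K] {V : Type*} [AddCommGroup V]
  [Module K V] [FiniteDimensional K V]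
  {ω : LinearMap.BilinForm K V} {G : Set (Module.End K V)}
  {T : Set (Module.End K V ≃+* Module.End K V)} {p0 : Module.End K V}

lemma MStr.dat (D : MStr ω G T p0) : GO.Dat (AA G T p0) (ML G T p0) :=
  ⟨fun _ hx => D.ml_mem hx, fun _ hx _ hy => D.ml_br hx hy⟩

/-- The component of a skew operator in the adjoint block. -/
lemma MStr.comp_adj (D : MStr ω G T p0) {e e' x : Module.End K V} (he' : Bl (AA G T p0) e')
    (hadj : IsAdj ω e e') (hx : x ∈ AA G T p0) (hsk : IsSk ω x) :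
    IsAdj ω (x * e) (-(x * e')) := by
  have h := (IsAdj.of_sk hsk).mul hadj
  have e1 : e' * -x = -(x * e') := by rw [mul_neg, he'.cen x hx]
  rw [e1] at h
  exact h

/-- The core of block GO. -/
lemma MStr.go_core (D : MStr ω G T p0) (hs : ∀ ε, Bl (AA G T p0) ε → Smp (Lb G T p0 ε))
    (hne : ∀ ε, Bl (AA G T p0) ε → Lb G T p0 ε ≠ ⊥)
    (hp : ∀ ε₁ ε₂, Bl (AA G T p0) ε₁ → Bl (AA G T p0) ε₂ → ε₁ ≠ ε₂ → ¬ IsAdj ω ε₁ ε₂ →
      ∃ x ∈ ML G T p0, x * ε₁ ≠ 0 ∧ x * ε₂ = 0) (n : ℕ) : ∀ x ∈ AA G T p0, IsSk ω x →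
      (∀ ε, Bl (AA G T p0) ε → x * ε ∈ Lb G T p0 ε) →
      Set.ncard {ε | ε ∈ bls (AA G T p0) ∧ x * ε ≠ 0} ≤ n → x ∈ GO.brk (ML G T p0) := by
  classical
  induction n with
  | zero =>
    intro x hx hsk hL hn
    have hfin : Set.Finite {ε | ε ∈ bls (AA G T p0) ∧ x * ε ≠ 0} :=
      Set.Finite.subset (bls (AA G T p0)).finite_toSet (fun e he => he.1)
    have h0 : {ε | ε ∈ bls (AA G T p0) ∧ x * ε ≠ 0} = ∅ :=
      (Set.ncard_eq_zero hfin).mp (Nat.le_zero.mp hn)
    have h1 : x = ∑ ε ∈ bls (AA G T p0), x * ε := by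
      rw [← Finset.mul_sum, sum_bls, mul_one]
    have h2 : ∑ ε ∈ bls (AA G T p0), x * ε = 0 := by
      apply Finset.sum_eq_zero
      intro e he
      by_contra hcon
      have : e ∈ {ε | ε ∈ bls (AA G T p0) ∧ x * ε ≠ 0} := ⟨he, hcon⟩
      rw [h0] at this
      exact this
    rw [h1, h2]
    exact Submodule.zero_mem _
  | succ n ih =>
    intro x hx hsk hL hn
    by_cases hex : ∃ e, Bl (AA G T p0) e ∧ x * e ≠ 0
    swap
    · push Not at hex
      refine ih x hx hsk hL ?_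
      have h0 : {ε | ε ∈ bls (AA G T p0) ∧ x * ε ≠ 0} = ∅ := by
        ext e
        simp only [Set.mem_ofPred_eq, Set.mem_empty_iff_false, iff_false, not_and, not_not]
        intro he
        exact hex e (mem_bls.mp he)
      rw [h0, Set.ncard_empty]
      exact Nat.zero_le n
    obtain ⟨e, he, hxe⟩ := hex
    obtain ⟨e', he', hadj, hadj'⟩ := D.adj_bl he
    set S : Finset (Module.End K V) := (bls (AA G T p0)).filter (fun f => f ≠ e ∧ f ≠ e') with hSd
    have hS : ∀ f ∈ S, Bl (AA G T p0) f ∧ ∃ x ∈ ML G T p0, x * e ≠ 0 ∧ x * f = 0 := by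
      intro f hf
      rw [hSd, Finset.mem_filter] at hf
      obtain ⟨hf1, hf2, hf3⟩ := hf
      have hfB := mem_bls.mp hf1
      refine ⟨hfB, hp e f he hfB (Ne.symm hf2) ?_⟩
      intro hcon
      exact hf3 (IsAdj.unique D.nd hcon hadj)
    have hperf : GO.brk ((ML G T p0).map (LinearMap.mulRight K e)) =
        (ML G T p0).map (LinearMap.mulRight K e) :=
      GO.perfect (D.red_lb he) (hs e he) (hne e he)
    have honto := D.dat.onto he hperf (hs e he) S hS
    -- lift the component of `x`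
    have h1 : x * e ∈ (GO.brk (GO.van (ML G T p0) S)).map (LinearMap.mulRight K e) := by
      have h2 : x * e ∈ GO.brk ((ML G T p0).map (LinearMap.mulRight K e)) := by
        rw [hperf]; exact hL e he
      have h3 : GO.brk ((ML G T p0).map (LinearMap.mulRight K e)) ≤
          (GO.brk (GO.van (ML G T p0) S)).map (LinearMap.mulRight K e) := by
        conv_lhs => unfold GO.brk
        rw [Submodule.span_le]
        rintro w ⟨y, hy, z, hz, rfl⟩
        rw [← honto] at hy hz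
        obtain ⟨y', hy', rfl⟩ := hy
        obtain ⟨z', hz', rfl⟩ := hz
        simp only [LinearMap.mulRight_apply]
        rw [D.dat.br_mul he (D.ml_mem hy'.1) (D.ml_mem hz'.1)]
        exact ⟨y' * z' - z' * y', Submodule.subset_span ⟨y', hy', z', hz', rfl⟩, rfl⟩
      exact h3 h2
    obtain ⟨z, hz, hze⟩ := h1
    have hze' : z * e = x * e := hze
    have hvbr : ∀ a ∈ GO.van (ML G T p0) S, ∀ b ∈ GO.van (ML G T p0) S,
        a * b - b * a ∈ GO.van (ML G T p0) S := by
      intro a ha b hb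
      refine ⟨D.ml_br ha.1 hb.1, fun f hf => ?_⟩
      exact (D.dat.br_van (hS f hf).1 (D.ml_mem ha.1) (D.ml_mem hb.1) (ha.2 f hf)).1
    have hzv : z ∈ GO.van (ML G T p0) S := GO.brk_le hvbr hz
    have hzM : z ∈ ML G T p0 := hzv.1
    have hzA := D.ml_mem hzM
    have hzsk := D.ml_sk hzM
    have hze'' : z * e' = x * e' := by
      have a1 := D.comp_adj he' hadj hzA hzsk
      have a2 := D.comp_adj he' hadj hx hsk
      rw [hze'] at a1
      have := IsAdj.unique D.nd a1 a2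
      exact neg_injective this
    have hvM : GO.van (ML G T p0) S ≤ ML G T p0 := fun w hw => hw.1
    have hzD : z ∈ GO.brk (ML G T p0) := GO.brk_mono hvM hz
    -- subtract
    have hsub : x - z ∈ GO.brk (ML G T p0) := by
      apply ih
      · exact (AA G T p0).sub_mem hx hzA
      · intro v w
        rw [LinearMap.sub_apply, LinearMap.sub_apply, map_sub, map_sub, LinearMap.sub_apply,
          hsk v w, hzsk v w]
        ring
      · intro f hf
        rw [sub_mul]
        exact Submodule.sub_mem _ (hL f hf) ⟨z, hzM, rfl⟩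
      · have hsubset : {ε | ε ∈ bls (AA G T p0) ∧ (x - z) * ε ≠ 0} ⊆
            {ε | ε ∈ bls (AA G T p0) ∧ x * ε ≠ 0} \ {e} := by
          rintro f ⟨hf1, hf2⟩
          rw [sub_mul] at hf2
          have hfe : f ≠ e := by
            rintro rfl
            exact hf2 (by rw [hze', sub_self])
          have hfe' : f ≠ e' := by
            rintro rfl
            exact hf2 (by rw [hze'', sub_self])
          have hfS : f ∈ S := by
            rw [hSd, Finset.mem_filter]
            exact ⟨hf1, hfe, hfe'⟩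
          have hz0 := hzv.2 f hfS
          rw [hz0, sub_zero] at hf2
          exact ⟨⟨hf1, hf2⟩, hfe⟩
        have hfin : Set.Finite {ε | ε ∈ bls (AA G T p0) ∧ x * ε ≠ 0} :=
          Set.Finite.subset (bls (AA G T p0)).finite_toSet (fun e he => he.1)
        have h1 := Set.ncard_le_ncard hsubset (hfin.sdiff)
        have hmem : e ∈ {ε | ε ∈ bls (AA G T p0) ∧ x * ε ≠ 0} := ⟨mem_bls.mpr he, hxe⟩
        have h2 := Set.ncard_sdiff_singleton_add_one hmem hfin
        omega
    have hfinal : x = (x - z) + z := by abel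
    rw [hfinal]
    exact Submodule.add_mem _ hsub hzD

/-- GO -/
theorem MStr.fullM (D : MStr ω G T p0) (hs : ∀ ε, Bl (AA G T p0) ε → Smp (Lb G T p0 ε))
    (hne : ∀ ε, Bl (AA G T p0) ε → Lb G T p0 ε ≠ ⊥)
    (hf : ∀ ε, Bl (AA G T p0) ε → FullB ω G T p0 ε)
    (hp : ∀ ε₁ ε₂, Bl (AA G T p0) ε₁ → Bl (AA G T p0) ε₂ → ε₁ ≠ ε₂ → ¬ IsAdj ω ε₁ ε₂ →
      ∃ x ∈ ML G T p0, x * ε₁ ≠ 0 ∧ x * ε₂ = 0) : FullM ω G T p0 := by
  intro x hx hsk htr
  refine GO.brk_le (fun a ha b hb => D.ml_br ha hb) (D.go_core hs hne hp _ x hx hsk ?_ le_rfl)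
  intro ε hε
  refine hf ε hε _ ((AA G T p0).mul_mem hx hε.mem) (by rw [mul_assoc, hε.idem]) (htr ε hε) ?_
  intro hsd v w
  have h := D.comp_adj hε hsd hx hsk v w
  rw [h, LinearMap.neg_apply, map_neg]

/-- GO2: under the same hypotheses the Lie algebra is spanned by brackets. -/
theorem MStr.ml_der (D : MStr ω G T p0) (hs : ∀ ε, Bl (AA G T p0) ε → Smp (Lb G T p0 ε))
    (hne : ∀ ε, Bl (AA G T p0) ε → Lb G T p0 ε ≠ ⊥)
    (hf : ∀ ε, Bl (AA G T p0) ε → FullB ω G T p0 ε)
    (hp : ∀ ε₁ ε₂, Bl (AA G T p0) ε₁ → Bl (AA G T p0) ε₂ → ε₁ ≠ ε₂ → ¬ IsAdj ω ε₁ ε₂ →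
      ∃ x ∈ ML G T p0, x * ε₁ ≠ 0 ∧ x * ε₂ = 0) {x : Module.End K V} (hx : x ∈ ML G T p0) :
    x ∈ Submodule.span K {w | ∃ y ∈ ML G T p0, ∃ z ∈ ML G T p0, w = y * z - z * y} :=
  D.go_core hs hne hp _ x (D.ml_mem hx) (D.ml_sk hx) (fun ε _ => ⟨x, hx, rfl⟩) le_rfl

/-- GP: linked blocks give linked Lie algebras of operators. -/
theorem MStr.lk (D : MStr ω G T p0) {ε₁ ε₂ : Module.End K V} (h1 : Bl (AA G T p0) ε₁)
    (h2 : Bl (AA G T p0) ε₂) (hs1 : Smp (Lb G T p0 ε₁)) (hs2 : Smp (Lb G T p0 ε₂))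
    (hne1 : Lb G T p0 ε₁ ≠ ⊥) (hne2 : Lb G T p0 ε₂ ≠ ⊥)
    (hl : ∀ x ∈ ML G T p0, x * ε₂ = 0 → x * ε₁ = 0) {W₁ W₂ : Submodule K V}
    (hW1 : Irr (AA G T p0 : Set (Module.End K V)) W₁) (hWε1 : InB ε₁ W₁)
    (hW2 : Irr (AA G T p0 : Set (Module.End K V)) W₂) (hWε2 : InB ε₂ W₂) :
    Lk ((ML G T p0).map (((Rw W₁).comp (LinearMap.mulRight K ε₁)).prod
      ((Rw W₂).comp (LinearMap.mulRight K ε₂)))) := by
  have R1 := D.ssA.rs h1 hW1 hWε1
  have R2 := D.ssA.rs h2 hW2 hWε2
  set φ : Module.End K V →ₗ[K] Module.End K W₁ × Module.End K W₂ :=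
    ((Rw W₁).comp (LinearMap.mulRight K ε₁)).prod
      ((Rw W₂).comp (LinearMap.mulRight K ε₂)) with hφ
  have hφ1 : ∀ x, (φ x).1 = Rw W₁ (x * ε₁) := fun x => rfl
  have hφ2 : ∀ x, (φ x).2 = Rw W₂ (x * ε₂) := fun x => rfl
  have hAe : ∀ {ε : Module.End K V}, Bl (AA G T p0) ε → ∀ x ∈ AA G T p0,
      x * ε ∈ Ae (AA G T p0) ε := by
    intro ε hε x hx
    exact ⟨(AA G T p0).mul_mem hx hε.mem, by rw [mul_assoc, hε.idem]⟩
  have hφbr : ∀ x ∈ ML G T p0, ∀ y ∈ ML G T p0,
      φ x * φ y - φ y * φ x = φ (x * y - y * x) := by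
    intro x hx y hy
    have hxA := D.ml_mem hx
    have hyA := D.ml_mem hy
    apply Prod.ext
    · rw [Prod.fst_sub, Prod.fst_mul, Prod.fst_mul, hφ1, hφ1, hφ1,
        ← R1.hom _ (hAe h1 x hxA) _ (hAe h1 y hyA), ← R1.hom _ (hAe h1 y hyA) _ (hAe h1 x hxA),
        ← map_sub, D.dat.br_mul h1 hxA hyA]
    · rw [Prod.snd_sub, Prod.snd_mul, Prod.snd_mul, hφ2, hφ2, hφ2,
        ← R2.hom _ (hAe h2 x hxA) _ (hAe h2 y hyA), ← R2.hom _ (hAe h2 y hyA) _ (hAe h2 x hxA),
        ← map_sub, D.dat.br_mul h2 hxA hyA]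
  have hz1 : ∀ x ∈ ML G T p0, (φ x).1 = 0 → x * ε₁ = 0 := by
    intro x hx h
    exact R1.inj _ (hAe h1 x (D.ml_mem hx)) h
  have hz2 : ∀ x ∈ ML G T p0, (φ x).2 = 0 → x * ε₂ = 0 := by
    intro x hx h
    exact R2.inj _ (hAe h2 x (D.ml_mem hx)) h
  -- the other direction of `hl`
  have hl' : ∀ x ∈ ML G T p0, x * ε₁ = 0 → x * ε₂ = 0 := by
    intro x hx hx1
    rcases hs2 ((GO.van (ML G T p0) {ε₁}).map (LinearMap.mulRight K ε₂))
      (Submodule.map_mono (fun z hz => hz.1)) (by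
        rintro _ ⟨a, ha, rfl⟩ _ ⟨b, hb, rfl⟩
        simp only [LinearMap.mulRight_apply]
        rw [D.dat.br_mul h2 (D.ml_mem ha) (D.ml_mem hb.1)]
        refine ⟨a * b - b * a, ⟨D.ml_br ha hb.1, ?_⟩, rfl⟩
        intro g hg
        rw [Finset.mem_singleton] at hg
        subst hg
        exact (D.dat.br_van h1 (D.ml_mem hb.1) (D.ml_mem ha)
          (hb.2 g (Finset.mem_singleton_self g))).2) with h | h
    · have h3 : x * ε₂ ∈ (GO.van (ML G T p0) {ε₁}).map (LinearMap.mulRight K ε₂) := by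
        refine ⟨x, ⟨hx, ?_⟩, rfl⟩
        intro g hg
        rw [Finset.mem_singleton] at hg
        rw [hg]; exact hx1
      rw [h, Submodule.mem_bot] at h3
      exact h3
    · exfalso
      apply hne1
      rw [eq_bot_iff]
      rintro _ ⟨y, hy, rfl⟩
      rw [Submodule.mem_bot]
      have h3 : y * ε₂ ∈ (GO.van (ML G T p0) {ε₁}).map (LinearMap.mulRight K ε₂) := by
        rw [h]; exact ⟨y, hy, rfl⟩
      obtain ⟨k, hk, hk2⟩ := h3
      have hk2' : k * ε₂ = y * ε₂ := hk2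
      have hk1 : k * ε₁ = 0 := hk.2 ε₁ (Finset.mem_singleton_self _)
      have h4 := hl (y - k) ((ML G T p0).sub_mem hy hk.1) (by rw [sub_mul, hk2', sub_self])
      rw [sub_mul, hk1, sub_zero] at h4
      exact h4
  have hk1 : ∀ x ∈ (ML G T p0).map φ, x.1 = 0 → x.2 = 0 := by
    rintro _ ⟨x, hx, rfl⟩ h
    rw [hφ2, hl' x hx (hz1 x hx h), map_zero]
  have hk2 : ∀ x ∈ (ML G T p0).map φ, x.2 = 0 → x.1 = 0 := by
    rintro _ ⟨x, hx, rfl⟩ h
    rw [hφ1, hl x hx (hz2 x hx h), map_zero]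
  refine ⟨?_, hk1, hk2, ?_, ?_⟩
  · rintro _ ⟨x, hx, rfl⟩ _ ⟨y, hy, rfl⟩
    rw [hφbr x hx y hy]
    exact ⟨_, D.ml_br hx hy, rfl⟩
  · intro M hM hid
    rcases hs1 (((ML G T p0) ⊓ M.comap φ).map (LinearMap.mulRight K ε₁))
      (Submodule.map_mono inf_le_left) (by
        rintro _ ⟨a, ha, rfl⟩ _ ⟨b, hb, rfl⟩
        simp only [LinearMap.mulRight_apply]
        rw [D.dat.br_mul h1 (D.ml_mem ha) (D.ml_mem hb.1)]
        refine ⟨a * b - b * a, ⟨D.ml_br ha hb.1, ?_⟩, rfl⟩
        change φ (a * b - b * a) ∈ M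
        rw [← hφbr a ha b hb.1]
        exact hid _ ⟨a, ha, rfl⟩ _ hb.2) with h | h
    · left
      rw [eq_bot_iff]
      intro m hm
      rw [Submodule.mem_bot]
      obtain ⟨z, hz, rfl⟩ := hM hm
      have h3 : z * ε₁ ∈ ((ML G T p0) ⊓ M.comap φ).map (LinearMap.mulRight K ε₁) :=
        ⟨z, ⟨hz, hm⟩, rfl⟩
      rw [h, Submodule.mem_bot] at h3
      have h4 : (φ z).1 = 0 := by rw [hφ1, h3, map_zero]
      exact Prod.ext h4 (hk1 _ ⟨z, hz, rfl⟩ h4)
    · right
      apply le_antisymm hM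
      rintro _ ⟨y, hy, rfl⟩
      have h3 : y * ε₁ ∈ ((ML G T p0) ⊓ M.comap φ).map (LinearMap.mulRight K ε₁) := by
        rw [h]; exact ⟨y, hy, rfl⟩
      obtain ⟨z, hz, hze⟩ := h3
      have hze' : z * ε₁ = y * ε₁ := hze
      have h4 : (φ (y - z)).1 = 0 := by rw [hφ1, sub_mul, hze', sub_self, map_zero]
      have h5 : φ (y - z) = 0 :=
        Prod.ext h4 (hk1 _ ⟨y - z, (ML G T p0).sub_mem hy hz.1, rfl⟩ h4)
      rw [map_sub, sub_eq_zero] at h5
      rw [h5]
      exact hz.2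
  · obtain ⟨y, hy, hy0⟩ := Submodule.exists_mem_ne_zero_of_ne_bot hne1
    obtain ⟨z, hz, rfl⟩ := hy
    refine ⟨φ z, ⟨z, hz, rfl⟩, ?_⟩
    intro hcon
    apply hy0
    have : (φ z).1 = 0 := by rw [hcon]; rfl
    exact hz1 z hz this

end GO

end AV
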